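import Pool.Agent.Helper71.P4.St

set_option autoImplicit false

open MeasureTheory Set Filter Topology

noncomputable section

namespace Helper71.P4

open Helper69.CR

private lemma lc_prev_U (N i : ℕ) (h : i ≤ N) :
    lc N i = lc (N + 1) i * (((N : ℝ) + 1 - i) / ((N : ℝ) + 1 + i)) := by
  unfold lc
  obtain ⟨k, rfl⟩ : ∃ k, N = i + k := ⟨N - i, by omega⟩
  have e1 : i + k + 1 - i = k + 1 := by omega
  have e2 : i + k - i = k := by omega
  have e3 : i + k + 1 + i = (i + k + i) + 1 := by omega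
  rw [e1, e2, e3, Nat.factorial_succ (i + k + i), Nat.factorial_succ k]
  have h1 : ((k.factorial : ℕ) : ℝ) ≠ 0 := by positivity
  have h2 : ((i.factorial : ℕ) : ℝ) ≠ 0 := by positivity
  have h3 : ((i : ℝ) + k + 1 + i) ≠ 0 := by positivity
  have h4 : ((k : ℝ) + 1) ≠ 0 := by positivity
  push_cast
  have h5 : ((i : ℝ) + k + i + 1) ≠ 0 := by positivity
  field_simp
  ring

private lemma pc_lc_U (N i : ℕ) (h : i ≤ N) :
    pc (N + 1) i = lc (N + 1) i * ((N : ℝ) + 1 - i) := by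
  unfold pc lc
  obtain ⟨k, rfl⟩ : ∃ k, N = i + k := ⟨N - i, by omega⟩
  have e1 : i + k + 1 - i = k + 1 := by omega
  have e2 : i + k + 1 - 1 - i = k := by omega
  rw [e1, e2, Nat.factorial_succ k]
  have h1 : ((k.factorial : ℕ) : ℝ) ≠ 0 := by positivity
  have h2 : ((i.factorial : ℕ) : ℝ) ≠ 0 := by positivity
  have h4 : ((k : ℝ) + 1) ≠ 0 := by positivity
  push_cast
  field_simp
  ring

private lemma lc_succ_U (n i : ℕ) (h : i + 1 ≤ n) :
    lc n (i + 1) * ((i : ℝ) + 1) ^ 2 = -(lc n i * ((n : ℝ) + i + 1) * ((n : ℝ) - i)) := by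
  unfold lc
  obtain ⟨k, rfl⟩ : ∃ k, n = i + 1 + k := ⟨n - (i + 1), by omega⟩
  have e1 : i + 1 + k - (i + 1) = k := by omega
  have e2 : i + 1 + k - i = k + 1 := by omega
  have e3 : i + 1 + k + (i + 1) = (i + 1 + k + i) + 1 := by omega
  rw [e1, e2, e3, Nat.factorial_succ (i + 1 + k + i), Nat.factorial_succ k, Nat.factorial_succ i,
    pow_succ]
  have h1 : ((k.factorial : ℕ) : ℝ) ≠ 0 := by positivity
  have h2 : ((i.factorial : ℕ) : ℝ) ≠ 0 := by positivity
  have h4 : ((k : ℝ) + 1) ≠ 0 := by positivity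
  have h5 : ((i : ℝ) + 1) ≠ 0 := by positivity
  push_cast
  field_simp
  ring

private lemma pc_succ_U (N i : ℕ) (h : i ≤ N) :
    pc (N + 1) i = -(((i : ℝ) + 1) ^ 2 * lc (N + 1) (i + 1) / ((N : ℝ) + 1 + (i + 1))) := by
  have h1 := lc_succ_U (N + 1) i (by omega)
  have h2 := pc_lc_U N i h
  have h3 : ((N : ℝ) + 1 + (i + 1)) ≠ 0 := by positivity
  rw [h2, ← neg_div, eq_div_iff h3]
  push_cast at h1
  linear_combination h1

private lemma LL_prev_U (N : ℕ) (s : ℝ) :
    LL N s = ∑ i ∈ Finset.range (N + 2),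
      lc (N + 1) i * (((N : ℝ) + 1 - i) / ((N : ℝ) + 1 + i)) * s ^ i := by
  rw [Finset.sum_range_succ]
  unfold LL
  have : lc (N + 1) (N + 1) * (((N : ℝ) + 1 - ((N + 1 : ℕ) : ℝ)) / ((N : ℝ) + 1 + ((N + 1 : ℕ) : ℝ)))
      * s ^ (N + 1) = 0 := by
    push_cast; simp
  rw [this, add_zero]
  apply Finset.sum_congr rfl
  intro i hi
  rw [lc_prev_U N i (by have := Finset.mem_range.mp hi; omega)]

private lemma uu_U (N : ℕ) (s : ℝ) :
    uu (N + 1) s = ∑ i ∈ Finset.range (N + 2),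
      ((N : ℝ) + 1) * lc (N + 1) i / ((N : ℝ) + 1 + i) * s ^ i := by
  unfold uu
  rw [Nat.add_sub_cancel, LL_prev_U]
  unfold LL
  rw [← Finset.sum_add_distrib, Finset.sum_div]
  apply Finset.sum_congr rfl
  intro i _
  have h3 : ((N : ℝ) + 1 + i) ≠ 0 := by positivity
  field_simp
  ring

private lemma vv_U (N : ℕ) (s : ℝ) :
    vv (N + 1) s = ∑ i ∈ Finset.range (N + 2),
      -((i : ℝ) * lc (N + 1) i / ((N : ℝ) + 1 + i)) * s ^ i := by
  unfold vv
  rw [Nat.add_sub_cancel, LL_prev_U]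
  unfold LL
  rw [← Finset.sum_sub_distrib, Finset.sum_div]
  apply Finset.sum_congr rfl
  intro i _
  have h3 : ((N : ℝ) + 1 + i) ≠ 0 := by positivity
  field_simp
  ring

private lemma p_u_U (N : ℕ) (s : ℝ) :
    (1 - s) * pp (N + 1) s = ((N + 1 : ℕ) : ℝ) * uu (N + 1) s := by
  rw [uu_U, Finset.mul_sum, Finset.sum_range_succ']
  unfold pp
  have hA : (1 - s) * ∑ i ∈ Finset.range (N + 1), pc (N + 1) i * s ^ i
      = (∑ i ∈ Finset.range (N + 1), pc (N + 1) i * s ^ i)
        - ∑ i ∈ Finset.range (N + 1), pc (N + 1) i * s ^ (i + 1) := by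
    rw [sub_mul, one_mul, Finset.mul_sum]
    congr 1
    apply Finset.sum_congr rfl
    intro i _; ring
  rw [hA]
  have hB : ∑ i ∈ Finset.range (N + 1), pc (N + 1) i * s ^ i
      = ∑ i ∈ Finset.range (N + 2), lc (N + 1) i * ((N : ℝ) + 1 - i) * s ^ i := by
    rw [Finset.sum_range_succ _ (N + 1)]
    have : lc (N + 1) (N + 1) * ((N : ℝ) + 1 - ((N + 1 : ℕ) : ℝ)) * s ^ (N + 1) = 0 := by
      push_cast; simp
    rw [this, add_zero]
    apply Finset.sum_congr rfl
    intro i hi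
    rw [pc_lc_U N i (by have := Finset.mem_range.mp hi; omega)]
  rw [hB, Finset.sum_range_succ', add_sub_right_comm, ← Finset.sum_sub_distrib]
  congr 1
  · apply Finset.sum_congr rfl
    intro i hi
    rw [pc_succ_U N i (by have := Finset.mem_range.mp hi; omega)]
    have h3 : ((N : ℝ) + 1 + (i + 1)) ≠ 0 := by positivity
    push_cast
    field_simp
    ring
  · have h3 : ((N : ℝ) + 1) ≠ 0 := by positivity
    push_cast
    field_simp
    ring

private lemma LL_one_U : ∀ n : ℕ, LL n 1 = (-1) ^ n := by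
  intro n
  induction n with
  | zero => simp [LL, lc]
  | succ N ih =>
    have h := p_u_U N 1
    have h3 : ((N + 1 : ℕ) : ℝ) ≠ 0 := by positivity
    have h4 : uu (N + 1) 1 = 0 := by
      have : ((N + 1 : ℕ) : ℝ) * uu (N + 1) 1 = 0 := by rw [← h]; ring
      exact (mul_eq_zero.mp this).resolve_left h3
    unfold uu at h4
    rw [Nat.add_sub_cancel, ih] at h4
    rw [pow_succ]
    linarith

theorem hU : StU := by
  intro n hn
  obtain ⟨N, rfl⟩ : ∃ N, n = N + 1 := ⟨n - 1, by omega⟩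
  have hu1 : uu (N + 1) 1 = 0 := by
    have h3 : ((N + 1 : ℕ) : ℝ) ≠ 0 := by positivity
    have : ((N + 1 : ℕ) : ℝ) * uu (N + 1) 1 = 0 := by rw [← p_u_U N 1]; ring
    exact (mul_eq_zero.mp this).resolve_left h3
  have hcu : Continuous (uu (N + 1)) := by
    have : uu (N + 1) = fun s => ∑ i ∈ Finset.range (N + 2),
      ((N : ℝ) + 1) * lc (N + 1) i / ((N : ℝ) + 1 + i) * s ^ i := funext (uu_U N)
    rw [this]; fun_prop
  have hcv : Continuous (vv (N + 1)) := by
    have : vv (N + 1) = fun s => ∑ i ∈ Finset.range (N + 2),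
      -((i : ℝ) * lc (N + 1) i / ((N : ℝ) + 1 + i)) * s ^ i := funext (vv_U N)
    rw [this]; fun_prop
  refine ⟨hcu, hcv, p_u_U N, ?_, ?_, ?_, ?_, ?_, hu1, ?_, ?_⟩
  · intro s
    have e : vv (N + 1) = fun s => ∑ i ∈ Finset.range (N + 2),
      -((i : ℝ) * lc (N + 1) i / ((N : ℝ) + 1 + i)) * s ^ i := funext (vv_U N)
    rw [e]
    have h := HasDerivAt.fun_sum (u := Finset.range (N + 2)) (x := s)
      (A := fun i (x : ℝ) => -((i : ℝ) * lc (N + 1) i / ((N : ℝ) + 1 + i)) * x ^ i)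
      (A' := fun i => -((i : ℝ) * lc (N + 1) i / ((N : ℝ) + 1 + i)) * ((i : ℝ) * s ^ (i - 1)))
      (fun i _ => (hasDerivAt_pow i s).const_mul _)
    have hv : pp (N + 1) s = ∑ i ∈ Finset.range (N + 2),
        -((i : ℝ) * lc (N + 1) i / ((N : ℝ) + 1 + i)) * ((i : ℝ) * s ^ (i - 1)) := by
      rw [Finset.sum_range_succ']
      unfold pp
      simp only [Nat.cast_zero, zero_mul, mul_zero, add_zero, Nat.add_sub_cancel]
      apply Finset.sum_congr rfl
      intro i hi
      rw [pc_succ_U N i (by have := Finset.mem_range.mp hi; omega)]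
      push_cast
      ring
    rw [hv]
    exact h
  · refine ⟨fun s => ∑ i ∈ Finset.range (N + 2),
      ((N : ℝ) + 1) * lc (N + 1) i / ((N : ℝ) + 1 + i) * ((i : ℝ) * s ^ (i - 1)), by fun_prop, ?_, ?_⟩
    · intro s
      have e : uu (N + 1) = fun s => ∑ i ∈ Finset.range (N + 2),
        ((N : ℝ) + 1) * lc (N + 1) i / ((N : ℝ) + 1 + i) * s ^ i := funext (uu_U N)
      rw [e]
      exact HasDerivAt.fun_sum (u := Finset.range (N + 2)) (x := s)
        (A := fun i (x : ℝ) => ((N : ℝ) + 1) * lc (N + 1) i / ((N : ℝ) + 1 + i) * x ^ i)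
        (A' := fun i => ((N : ℝ) + 1) * lc (N + 1) i / ((N : ℝ) + 1 + i) * ((i : ℝ) * s ^ (i - 1)))
        (fun i _ => (hasDerivAt_pow i s).const_mul _)
    · intro s
      rw [vv_U, Finset.mul_sum, Finset.mul_sum]
      apply Finset.sum_congr rfl
      intro i _
      rcases i with _ | i
      · simp
      · rw [Nat.add_sub_cancel, pow_succ]
        push_cast
        ring
  · refine ⟨fun s => ∑ i ∈ Finset.range (N + 1),
      -(((i : ℝ) + 1) * lc (N + 1) (i + 1) / ((N : ℝ) + 1 + (i + 1))) * s ^ i, by fun_prop, ?_⟩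
    intro s
    rw [vv_U, Finset.sum_range_succ', Finset.mul_sum]
    simp only [Nat.cast_zero, zero_mul, zero_div, neg_zero, add_zero]
    apply Finset.sum_congr rfl
    intro i _
    push_cast
    rw [pow_succ]
    ring
  · rw [uu_U, Finset.sum_range_succ']
    have : ∑ i ∈ Finset.range (N + 1),
      ((N : ℝ) + 1) * lc (N + 1) (i + 1) / ((N : ℝ) + 1 + ((i + 1 : ℕ) : ℝ)) * (0 : ℝ) ^ (i + 1) = 0 := by
      apply Finset.sum_eq_zero
      intro i _; simp
    rw [this]
    have h4 : ((N : ℝ) + 1) ≠ 0 := by positivity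
    have h1 : (((N + 1).factorial : ℕ) : ℝ) ≠ 0 := by positivity
    simp [lc, h4, h1]
  · rw [vv_U, Finset.sum_range_succ']
    have : ∑ i ∈ Finset.range (N + 1),
      -((((i + 1 : ℕ) : ℝ)) * lc (N + 1) (i + 1) / ((N : ℝ) + 1 + ((i + 1 : ℕ) : ℝ))) * (0 : ℝ) ^ (i + 1) = 0 := by
      apply Finset.sum_eq_zero
      intro i _; simp
    rw [this]; simp
  · unfold vv
    rw [Nat.add_sub_cancel, LL_one_U, LL_one_U, pow_succ, pow_succ, pow_succ]
    ring
  · unfold pp
    rw [Finset.sum_range_succ']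
    have : ∑ i ∈ Finset.range N, pc (N + 1) (i + 1) * (0 : ℝ) ^ (i + 1) = 0 := by
      apply Finset.sum_eq_zero
      intro i _; simp
    rw [this, pc_lc_U N 0 (by omega)]
    have h1 : (((N + 1).factorial : ℕ) : ℝ) ≠ 0 := by positivity
    simp [lc, h1]

end Helper71.P4
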