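import Pool.Agent.Helper71.P4.St

set_option autoImplicit false

open MeasureTheory Set Filter Topology

noncomputable section

namespace Helper71.P4

open Helper69.CR

private lemma cont_pp_X0 (n : ℕ) : Continuous (pp n) := by
  have : pp n = fun s => ∑ i ∈ Finset.range n, pc n i * s ^ i := rfl
  rw [this]; fun_prop

private lemma cont_LL_X0 (n : ℕ) : Continuous (LL n) := by
  have : LL n = fun s => ∑ i ∈ Finset.range (n + 1), lc n i * s ^ i := rfl
  rw [this]; fun_prop

private lemma ftc_X0 (F f : ℝ → ℝ) (hF : ∀ s, HasDerivAt F (f s) s) (hf : Continuous f) :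
    ∫ s in (0 : ℝ)..1, f s = F 1 - F 0 :=
  intervalIntegral.integral_eq_sub_of_hasDerivAt (fun s _ => hF s) (hf.intervalIntegrable _ _)

private lemma lin_X0 (f g : ℝ → ℝ) (hf : Continuous f) (hg : Continuous g) (a b : ℝ) :
    ∫ s in (0 : ℝ)..1, (a * f s + b * g s) =
      a * (∫ s in (0 : ℝ)..1, f s) + b * ∫ s in (0 : ℝ)..1, g s := by
  have h1 : IntervalIntegrable (fun s => a * f s) volume 0 1 :=
    (continuous_const.mul hf).intervalIntegrable _ _
  have h2 : IntervalIntegrable (fun s => b * g s) volume 0 1 :=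
    (continuous_const.mul hg).intervalIntegrable _ _
  rw [intervalIntegral.integral_add h1 h2, intervalIntegral.integral_const_mul,
    intervalIntegral.integral_const_mul]

private lemma rel_X0 (h : StU) (n : ℕ) (hn : 1 ≤ n) :
    (∫ s in (0 : ℝ)..1, uu n s ^ 2) = 2 * n * ∫ s in (0 : ℝ)..1, uu n s * vv n s ∧
    (∫ s in (0 : ℝ)..1, vv n s ^ 2) = 2 * n * ∫ s in (0 : ℝ)..1, uu n s * vv n s ∧
    (∫ s in (0 : ℝ)..1, s * (uu n s * pp n s)) =
      n * (∫ s in (0 : ℝ)..1, vv n s ^ 2) - ∫ s in (0 : ℝ)..1, uu n s * vv n s := by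
  obtain ⟨hu, hv, hp, hvd, ⟨w, hwc, hwd, hw⟩, _, hu0, hv0, hu1, hv1, _⟩ := h n hn
  have hpc := cont_pp_X0 n
  have cuu : Continuous fun s => uu n s ^ 2 := by fun_prop
  have cvv : Continuous fun s => vv n s ^ 2 := by fun_prop
  have cuv : Continuous fun s => uu n s * vv n s := by fun_prop
  have csup : Continuous fun s => s * (uu n s * pp n s) := by fun_prop
  refine ⟨?_, ?_, ?_⟩
  · have e := ftc_X0 (fun s => s * uu n s ^ 2)
      (fun s => 1 * uu n s ^ 2 + (-(2 * n)) * (uu n s * vv n s))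
      (fun s => by
        have h1 := (hasDerivAt_id s).mul ((hwd s).pow 2)
        refine h1.congr_deriv ?_
        have h2 := hw s
        simp only [id, Pi.pow_apply]
        push_cast
        linear_combination (2 * uu n s) * h2)
      (by fun_prop)
    rw [lin_X0 _ _ cuu cuv] at e
    simp only [hu1] at e
    linarith
  · have e := ftc_X0 (fun s => (1 - s) * vv n s ^ 2)
      (fun s => (2 * n) * (uu n s * vv n s) + (-1) * vv n s ^ 2)
      (fun s => by
        have h1 := ((hasDerivAt_const s (1 : ℝ)).sub (hasDerivAt_id s)).mul ((hvd s).pow 2)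
        refine h1.congr_deriv ?_
        have h2 := hp s
        simp only [id, Pi.pow_apply, Pi.sub_apply]
        push_cast
        linear_combination (2 * vv n s) * h2)
      (by fun_prop)
    rw [lin_X0 _ _ cuv cvv] at e
    simp only [hv0] at e
    linarith
  · have e := ftc_X0 (fun s => s * (uu n s * vv n s))
      (fun s => 1 * (1 * (uu n s * vv n s) + (-(n : ℝ)) * vv n s ^ 2) + 1 * (s * (uu n s * pp n s)))
      (fun s => by
        have h1 := (hasDerivAt_id s).mul ((hwd s).mul (hvd s))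
        refine h1.congr_deriv ?_
        have h2 := hw s
        simp only [id, Pi.mul_apply]
        linear_combination (vv n s) * h2)
      (by fun_prop)
    rw [lin_X0 (fun s => 1 * (uu n s * vv n s) + (-(n : ℝ)) * vv n s ^ 2) _ (by fun_prop) csup,
      lin_X0 _ _ cuv cvv] at e
    simp only [hu1] at e
    linarith

private lemma LLsq_X0 (h : StU) (n : ℕ) (hn : 1 ≤ n) :
    (∫ s in (0 : ℝ)..1, LL n s ^ 2) = (∫ s in (0 : ℝ)..1, uu n s ^ 2) +
      (∫ s in (0 : ℝ)..1, vv n s ^ 2) - 2 * ∫ s in (0 : ℝ)..1, uu n s * vv n s := by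
  obtain ⟨hu, hv, -⟩ := h n hn
  have cuu : Continuous fun s => uu n s ^ 2 := by fun_prop
  have cvv : Continuous fun s => vv n s ^ 2 := by fun_prop
  have cuv : Continuous fun s => uu n s * vv n s := by fun_prop
  have e : ∀ s, LL n s ^ 2 = 1 * (1 * uu n s ^ 2 + 1 * vv n s ^ 2) + (-2) * (uu n s * vv n s) := by
    intro s; unfold uu vv; ring
  simp only [e]
  rw [lin_X0 (fun s => 1 * uu n s ^ 2 + 1 * vv n s ^ 2) _ (by fun_prop) cuv, lin_X0 _ _ cuu cvv]
  ring

private lemma LLsq'_X0 (h : StU) (n : ℕ) (hn : 1 ≤ n) :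
    (∫ s in (0 : ℝ)..1, LL (n - 1) s ^ 2) = (∫ s in (0 : ℝ)..1, uu n s ^ 2) +
      (∫ s in (0 : ℝ)..1, vv n s ^ 2) + 2 * ∫ s in (0 : ℝ)..1, uu n s * vv n s := by
  obtain ⟨hu, hv, -⟩ := h n hn
  have cuu : Continuous fun s => uu n s ^ 2 := by fun_prop
  have cvv : Continuous fun s => vv n s ^ 2 := by fun_prop
  have cuv : Continuous fun s => uu n s * vv n s := by fun_prop
  have e : ∀ s, LL (n - 1) s ^ 2 = 1 * (1 * uu n s ^ 2 + 1 * vv n s ^ 2) + 2 * (uu n s * vv n s) := by
    intro s; unfold uu vv; ring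
  simp only [e]
  rw [lin_X0 (fun s => 1 * uu n s ^ 2 + 1 * vv n s ^ 2) _ (by fun_prop) cuv, lin_X0 _ _ cuu cvv]
  ring

private lemma LLnorm_X0 (h : StU) : ∀ n : ℕ, (2 * (n : ℝ) + 1) * ∫ s in (0 : ℝ)..1, LL n s ^ 2 = 1 := by
  intro n
  induction n with
  | zero => simp [LL, lc]
  | succ n ih =>
    obtain ⟨r1, r2, -⟩ := rel_X0 h (n + 1) (by omega)
    have a := LLsq_X0 h (n + 1) (by omega)
    have b := LLsq'_X0 h (n + 1) (by omega)
    rw [Nat.add_sub_cancel] at b
    rw [a, r1, r2]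
    rw [b, r1, r2] at ih
    push_cast at ih ⊢
    linarith

theorem hX0 : StU → StX0 := by
  intro h n hn
  have hu := (h n hn).1
  have hp := (h n hn).2.2.1
  have hpc := cont_pp_X0 n
  obtain ⟨r1, r2, r3⟩ := rel_X0 h n hn
  have hN := LLnorm_X0 h n
  rw [LLsq_X0 h n hn, r1, r2] at hN
  have e1 : Xm n 0 = n * ∫ s in (0 : ℝ)..1, uu n s * pp n s := by
    unfold Xm
    rw [← intervalIntegral.integral_const_mul]
    apply intervalIntegral.integral_congr
    intro s _
    show s ^ 0 * ((1 - s) * pp n s ^ 2) = n * (uu n s * pp n s)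
    linear_combination (pp n s) * hp s
  have e2 : (∫ s in (0 : ℝ)..1, uu n s * pp n s) - (∫ s in (0 : ℝ)..1, s * (uu n s * pp n s)) =
      n * ∫ s in (0 : ℝ)..1, uu n s ^ 2 := by
    have c1 : Continuous fun s => uu n s * pp n s := by fun_prop
    have c2 : Continuous fun s => s * (uu n s * pp n s) := by fun_prop
    have c3 : Continuous fun s => uu n s ^ 2 := by fun_prop
    have e3 := lin_X0 _ _ c1 c2 1 (-1)
    have e4 : (∫ s in (0 : ℝ)..1, (1 * (uu n s * pp n s) + (-1) * (s * (uu n s * pp n s)))) =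
        ∫ s in (0 : ℝ)..1, (n : ℝ) * uu n s ^ 2 := by
      apply intervalIntegral.integral_congr
      intro s _
      show 1 * (uu n s * pp n s) + (-1) * (s * (uu n s * pp n s)) = n * uu n s ^ 2
      linear_combination (uu n s) * hp s
    rw [intervalIntegral.integral_const_mul] at e4
    linarith
  have hn0 : (0 : ℝ) < n := by exact_mod_cast hn
  set Z : ℝ := ∫ s in (0 : ℝ)..1, uu n s * vv n s with hZ
  set P : ℝ := ∫ s in (0 : ℝ)..1, uu n s * pp n s with hP
  rw [r3, r1, r2] at e2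
  rw [e1]
  have hPv : P = 4 * n ^ 2 * Z - Z := by linarith
  rw [hPv]
  linear_combination (n / 2 : ℝ) * hN

end Helper71.P4
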